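import Mathlib.Combinatorics.Matroid.Sum
import Mathlib.Combinatorics.Matroid.Constructions
import Mathlib.Combinatorics.Matroid.Minor.Contract
import Mathlib.Combinatorics.Matroid.Circuit

/-!
# Self-dual minor-closed classes containing all independence spaces

Everything is phrased for families of subsets, as in the problem file.  On every infinite set `S`
there is an admissible system that contains all independence spaces and is smaller than the system
of all B-matroids, even when closure under arbitrary direct sums and under isomorphism is asked: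
the direct sums of a finitary and a cofinitary matroid.
-/

namespace Pool.Agent.Results.MP_cb2a9f_co.SplitSystem

open Set Matroid

universe u

variable {α : Type u}

/-- Pre-independence space on `W`. -/
structure IsPreIndepSpace (W : Set α) (I : Set (Set α)) : Prop where
  subset_ground : ∀ X ∈ I, X ⊆ W
  empty_mem : ∅ ∈ I
  down_closed : ∀ X ∈ I, ∀ Y, Y ⊆ X → Y ∈ I
  augment : ∀ I₁ ∈ I, ∀ I₂ ∈ I, I₁.Finite → I₂.Finite → I₁.ncard < I₂.ncard →
    ∃ e ∈ I₂ \ I₁, I₁ ∪ {e} ∈ I

/-- Independence space on `W`: a pre-independence space in which a subset of `W` is a member as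
soon as all its finite subsets are. -/
structure IsIndepSpace (W : Set α) (I : Set (Set α)) : Prop where
  pre : IsPreIndepSpace W I
  finitary : ∀ Y, Y ⊆ W → (∀ F, F ⊆ Y → F.Finite → F ∈ I) → Y ∈ I

/-- The set `M_X` of maximal members of `{Y ∈ I : Y ⊆ X}`. -/
def maxIn (I : Set (Set α)) (X : Set α) : Set (Set α) :=
  {Y | Y ∈ I ∧ Y ⊆ X ∧ ∀ Z ∈ I, Z ⊆ X → Y ⊆ Z → Z = Y}

/-- B-matroid on `W`. -/
structure IsBMatroid (W : Set α) (I : Set (Set α)) : Prop where
  subset_ground : ∀ X ∈ I, X ⊆ W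
  empty_mem : ∅ ∈ I
  down_closed : ∀ X ∈ I, ∀ Y, Y ⊆ X → Y ∈ I
  ib1 : ∀ X, X ⊆ W → ∀ T ∈ I, T ⊆ X → ∃ B ∈ maxIn I X, T ⊆ B
  ib2 : ∀ X, X ⊆ W → ∀ B₁ ∈ maxIn I X, ∀ B₂ ∈ maxIn I X, ∀ x ∈ B₁ \ B₂,
    ∃ y ∈ B₂ \ B₁, (B₁ \ {x}) ∪ {y} ∈ maxIn I X

/-- A basis of `I` is a maximal member. -/
def IsBasisOf (I : Set (Set α)) (B : Set α) : Prop :=
  B ∈ I ∧ ∀ Z ∈ I, B ⊆ Z → Z = B

/-- The restriction `I|Z`. -/
def restr (I : Set (Set α)) (Z : Set α) : Set (Set α) := {Y | Y ⊆ Z ∧ Y ∈ I}

/-- The contraction `I.Z`, formed with the basis `B` of `I|(W \ Z)`. -/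
def contr (I : Set (Set α)) (Z B : Set α) : Set (Set α) := {Y | Y ⊆ Z ∧ Y ∪ B ∈ I}

/-- The dual of the family `I` on `W`. -/
def dualFam (W : Set α) (I : Set (Set α)) : Set (Set α) :=
  {X | X ⊆ W ∧ ∃ B, IsBasisOf I B ∧ B ⊆ W \ X}

/-- Admissible system on `S`. -/
structure IsAdmissible (S : Set α) (D : Set α → Set (Set (Set α))) : Prop where
  pre : ∀ W, W ⊆ S → ∀ I ∈ D W, IsPreIndepSpace W I
  restr_mem : ∀ W, W ⊆ S → ∀ Z, Z ⊆ W → ∀ I ∈ D W, restr I Z ∈ D Z
  contr_exists : ∀ W, W ⊆ S → ∀ Z, Z ⊆ W → ∀ I ∈ D W, ∃ B, IsBasisOf (restr I (W \ Z)) B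
  contr_unique : ∀ W, W ⊆ S → ∀ Z, Z ⊆ W → ∀ I ∈ D W, ∀ B B',
    IsBasisOf (restr I (W \ Z)) B → IsBasisOf (restr I (W \ Z)) B' → contr I Z B = contr I Z B'
  contr_mem : ∀ W, W ⊆ S → ∀ Z, Z ⊆ W → ∀ I ∈ D W, ∀ B,
    IsBasisOf (restr I (W \ Z)) B → contr I Z B ∈ D Z
  dual_mem : ∀ W, W ⊆ S → ∀ I ∈ D W, dualFam W I ∈ D W
  dual_dual : ∀ W, W ⊆ S → ∀ I ∈ D W, dualFam W (dualFam W I) = I

/-- Every `D_W` contains all independence spaces on `W`. -/
def ContainsIndepSpaces (S : Set α) (D : Set α → Set (Set (Set α))) : Prop :=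
  ∀ W, W ⊆ S → ∀ I, IsIndepSpace W I → I ∈ D W

/-- The direct sum, on the union `W` of a collection `P` of sets, of the families `I U`, `U ∈ P`. -/
def directSum (P : Set (Set α)) (I : Set α → Set (Set α)) : Set (Set α) :=
  {X | X ⊆ ⋃₀ P ∧ ∀ U ∈ P, X ∩ U ∈ I U}

/-- Closure under direct sums, with arbitrarily many summands, on disjoint subsets of `S`. -/
def ClosedUnderDirectSums (S : Set α) (D : Set α → Set (Set (Set α))) : Prop :=
  ∀ P : Set (Set α), ⋃₀ P ⊆ S → P.PairwiseDisjoint id →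
    ∀ I : Set α → Set (Set α), (∀ U ∈ P, I U ∈ D U) → directSum P I ∈ D (⋃₀ P)

/-- Closure under isomorphism: bijections between subsets of `S` carry members to members. -/
def ClosedUnderIso (S : Set α) (D : Set α → Set (Set (Set α))) : Prop :=
  ∀ W, W ⊆ S → ∀ f : α → α, InjOn f W → f '' W ⊆ S → ∀ I ∈ D W, (image f) '' I ∈ D (f '' W)

/-! ## Bridge to Mathlib matroids -/

/-- The family of independent sets of a matroid. -/
def fam (M : Matroid α) : Set (Set α) := {X | M.Indep X}

lemma mem_fam {M : Matroid α} {X : Set α} : X ∈ fam M ↔ M.Indep X := Iff.rfl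

lemma fam_inj {M N : Matroid α} (hE : M.E = N.E) (h : fam M = fam N) : M = N := by
  refine Matroid.ext_indep hE fun I _ => ?_
  have := Set.ext_iff.1 h I
  exact this

lemma isBasisOf_fam {M : Matroid α} {B : Set α} : IsBasisOf (fam M) B ↔ M.IsBase B := by
  rw [Matroid.isBase_iff_maximal_indep]
  constructor
  · rintro ⟨h1, h2⟩
    exact ⟨h1, fun Z hZ hBZ => (h2 Z hZ hBZ).le⟩
  · intro h
    exact ⟨h.1, fun Z hZ hBZ => (h.eq_of_subset hZ hBZ).symm⟩

lemma maxIn_fam {M : Matroid α} {X Y : Set α} (hX : X ⊆ M.E) :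
    Y ∈ maxIn (fam M) X ↔ M.IsBasis Y X := by
  rw [Matroid.IsBasis]
  constructor
  · rintro ⟨h1, h2, h3⟩
    exact ⟨⟨⟨h1, h2⟩, fun Z hZ hYZ => (h3 Z hZ.1 hZ.2 hYZ).le⟩, hX⟩
  · rintro ⟨h, -⟩
    exact ⟨h.1.1, h.1.2, fun Z hZ hZX hYZ => (h.eq_of_subset ⟨hZ, hZX⟩ hYZ).symm⟩

lemma fam_pre (M : Matroid α) : IsPreIndepSpace M.E (fam M) where
  subset_ground X hX := Matroid.Indep.subset_ground hX
  empty_mem := M.empty_indep
  down_closed X hX Y hY := Matroid.Indep.subset hX hY
  augment I₁ h₁ I₂ h₂ f₁ f₂ hlt := by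
    have hlt' : I₁.encard < I₂.encard := by
      rw [← f₁.cast_ncard_eq, ← f₂.cast_ncard_eq]
      exact_mod_cast hlt
    obtain ⟨e, he, hi⟩ := Matroid.Indep.augment h₁ h₂ hlt'
    exact ⟨e, he, by rw [union_singleton]; exact hi⟩

lemma fam_bMatroid (M : Matroid α) : IsBMatroid M.E (fam M) where
  subset_ground X hX := Matroid.Indep.subset_ground hX
  empty_mem := M.empty_indep
  down_closed X hX Y hY := Matroid.Indep.subset hX hY
  ib1 X hX T hT hTX := by
    obtain ⟨J, hJ, hTJ⟩ := Matroid.Indep.subset_isBasis_of_subset hT hTX hX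
    exact ⟨J, (maxIn_fam hX).2 hJ, hTJ⟩
  ib2 X hX B₁ h₁ B₂ h₂ x hx := by
    rw [maxIn_fam hX] at h₁ h₂
    obtain ⟨y, hy, hb⟩ := h₁.exchange h₂ hx
    refine ⟨y, hy, ?_⟩
    rw [maxIn_fam hX, union_singleton]
    exact hb

lemma fam_indepSpace (M : Matroid α) (hM : M.Finitary) : IsIndepSpace M.E (fam M) where
  pre := fam_pre M
  finitary Y _ h := M.indep_of_forall_finite_subset_indep Y fun J hJ hf => h J hJ hf

lemma exists_finitary {W : Set α} {I : Set (Set α)} (h : IsIndepSpace W I) :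
    ∃ M : Matroid α, M.E = W ∧ fam M = I ∧ M.Finitary := by
  classical
  let M' : IndepMatroid α := IndepMatroid.ofFinitaryCardAugment W (fun X => X ∈ I)
    h.pre.empty_mem
    (fun X Y hY hXY => h.pre.down_closed Y hY X hXY)
    (fun X Y hX hXf hY hYf hlt => by
      obtain ⟨e, he, hi⟩ := h.pre.augment X hX Y hY hXf hYf hlt
      exact ⟨e, he.1, he.2, by rwa [union_singleton] at hi⟩)
    (fun X hX => by
      refine h.finitary X ?_ fun F hF hFf => hX F hF hFf
      intro x hx
      have := hX {x} (singleton_subset_iff.2 hx) (finite_singleton x)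
      exact h.pre.subset_ground _ this rfl)
    (fun X hX => h.pre.subset_ground X hX)
  refine ⟨M'.matroid, rfl, rfl, ?_⟩
  infer_instance

lemma dualFam_fam (M : Matroid α) : dualFam M.E (fam M) = fam M✶ := by
  ext X
  rw [mem_fam, Matroid.dual_indep_iff_exists']
  simp only [dualFam, mem_ofPred_eq, isBasisOf_fam]
  refine and_congr_right fun hX => exists_congr fun B => and_congr_right fun hB => ?_
  rw [subset_sdiff, and_iff_right hB.subset_ground, disjoint_comm]

lemma restr_fam (M : Matroid α) (Z : Set α) : restr (fam M) Z = fam (M ↾ Z) := by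
  ext X
  rw [mem_fam, Matroid.restrict_indep_iff]
  simp only [restr, mem_ofPred_eq, mem_fam]
  exact and_comm

lemma isBasisOf_restr_fam {M : Matroid α} {Z B : Set α} (hZ : Z ⊆ M.E) :
    IsBasisOf (restr (fam M) Z) B ↔ M.IsBasis B Z := by
  rw [restr_fam, isBasisOf_fam, Matroid.isBase_restrict_iff hZ]

lemma contr_fam {M : Matroid α} {Z B : Set α} (hB : M.IsBasis B (M.E \ Z)) :
    contr (fam M) Z B = fam (M ／ (M.E \ Z)) := by
  ext X
  rw [mem_fam, hB.contract_indep_iff]
  simp only [contr, mem_ofPred_eq, mem_fam]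
  constructor
  · rintro ⟨h1, h2⟩
    exact ⟨h2, disjoint_sdiff_left.mono_right h1⟩
  · rintro ⟨h2, h1⟩
    refine ⟨fun x hx => ?_, h2⟩
    by_contra hxZ
    exact (disjoint_left.1 h1) ⟨h2.subset_ground (Or.inl hx), hxZ⟩ hx

/-! ## Systems given by a class of matroids -/

/-- The system of all families `fam M` with `M` in the class `P`. -/
def sysOf (P : Matroid α → Prop) (W : Set α) : Set (Set (Set α)) :=
  {I | ∃ M : Matroid α, M.E = W ∧ P M ∧ I = fam M}

lemma contract_eq (M : Matroid α) (Z : Set α) (hZ : Z ⊆ M.E) :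
    M ／ (M.E \ Z) = (M✶ ↾ Z)✶ := by
  rw [Matroid.contract, Matroid.delete_eq_restrict, Matroid.dual_ground, sdiff_sdiff_cancel_left hZ]

lemma sysOf_admissible (P : Matroid α → Prop)
    (hr : ∀ (M : Matroid α) (Z : Set α), Z ⊆ M.E → P M → P (M ↾ Z))
    (hd : ∀ M : Matroid α, P M → P M✶) (S : Set α) : IsAdmissible S (sysOf P) where
  pre := by
    rintro W - I ⟨M, rfl, -, rfl⟩
    exact fam_pre M
  restr_mem := by
    rintro W - Z hZ I ⟨M, rfl, hP, rfl⟩
    exact ⟨M ↾ Z, rfl, hr M Z hZ hP, restr_fam M Z⟩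
  contr_exists := by
    rintro W - Z hZ I ⟨M, rfl, hP, rfl⟩
    obtain ⟨B, hB⟩ := M.exists_isBasis (M.E \ Z) sdiff_subset
    exact ⟨B, (isBasisOf_restr_fam sdiff_subset).2 hB⟩
  contr_unique := by
    rintro W - Z hZ I ⟨M, rfl, hP, rfl⟩ B B' hB hB'
    rw [isBasisOf_restr_fam sdiff_subset] at hB hB'
    rw [contr_fam hB, contr_fam hB']
  contr_mem := by
    rintro W - Z hZ I ⟨M, rfl, hP, rfl⟩ B hB
    rw [isBasisOf_restr_fam sdiff_subset] at hB
    rw [contr_fam hB]
    refine ⟨M ／ (M.E \ Z), ?_, ?_, rfl⟩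
    · rw [Matroid.contract_ground, sdiff_sdiff_cancel_left hZ]
    · rw [contract_eq M Z hZ]
      exact hd _ (hr _ _ hZ (hd _ hP))
  dual_mem := by
    rintro W - I ⟨M, rfl, hP, rfl⟩
    exact ⟨M✶, rfl, hd M hP, dualFam_fam M⟩
  dual_dual := by
    rintro W - I ⟨M, rfl, hP, rfl⟩
    rw [dualFam_fam M]
    have := dualFam_fam M✶
    rw [Matroid.dual_ground, Matroid.dual_dual] at this
    exact this

/-! ## Direct sums of a finitary and a cofinitary matroid -/

/-- `M` is the direct sum of a finitary matroid and the dual of a finitary matroid. -/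
def Split (M : Matroid α) : Prop :=
  ∃ (M₁ M₂ : Matroid α) (h : Disjoint M₁.E M₂.E), M₁.Finitary ∧ M₂✶.Finitary ∧
    M = M₁.disjointSum M₂ h

lemma dual_disjointSum (M N : Matroid α) (h : Disjoint M.E N.E) (h' : Disjoint M✶.E N✶.E) :
    (M.disjointSum N h)✶ = M✶.disjointSum N✶ h' := by
  refine Matroid.ext_isBase ?_ fun B hB => ?_
  · rw [Matroid.dual_ground, Matroid.disjointSum_ground_eq, Matroid.disjointSum_ground_eq,
      Matroid.dual_ground, Matroid.dual_ground]
  have hB' : B ⊆ M.E ∪ N.E := by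
    rwa [Matroid.dual_ground, Matroid.disjointSum_ground_eq] at hB
  rw [Matroid.dual_isBase_iff (by rwa [Matroid.disjointSum_ground_eq]),
    Matroid.disjointSum_isBase_iff,
    Matroid.disjointSum_isBase_iff, Matroid.disjointSum_ground_eq, Matroid.dual_ground,
    Matroid.dual_ground, Matroid.dual_isBase_iff inter_subset_right,
    Matroid.dual_isBase_iff inter_subset_right]
  have e1 : (M.E ∪ N.E) \ B ∩ M.E = M.E \ (B ∩ M.E) := by
    ext x; simp only [mem_inter_iff, mem_sdiff, mem_union]; tauto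
  have e2 : (M.E ∪ N.E) \ B ∩ N.E = N.E \ (B ∩ N.E) := by
    ext x; simp only [mem_inter_iff, mem_sdiff, mem_union]; tauto
  rw [e1, e2]
  have h3 : (M.E ∪ N.E) \ B ⊆ M.E ∪ N.E := sdiff_subset
  tauto

lemma restrict_disjointSum (M N : Matroid α) (h : Disjoint M.E N.E) (Z : Set α)
    (hZ : Z ⊆ M.E ∪ N.E) (h' : Disjoint (M ↾ (Z ∩ M.E)).E (N ↾ (Z ∩ N.E)).E) :
    (M.disjointSum N h) ↾ Z = (M ↾ (Z ∩ M.E)).disjointSum (N ↾ (Z ∩ N.E)) h' := by
  refine Matroid.ext_indep ?_ fun I hI => ?_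
  · simp only [Matroid.restrict_ground_eq, Matroid.disjointSum_ground_eq]
    rw [← inter_union_distrib_left, inter_eq_left.2 hZ]
  · simp only [Matroid.restrict_ground_eq] at hI
    simp only [Matroid.restrict_indep_iff, Matroid.disjointSum_indep_iff,
      Matroid.restrict_ground_eq]
    have e1 : I ∩ (Z ∩ M.E) = I ∩ M.E := by rw [← inter_assoc, inter_eq_left.2 hI]
    have e2 : I ∩ (Z ∩ N.E) = I ∩ N.E := by rw [← inter_assoc, inter_eq_left.2 hI]
    rw [e1, e2, ← inter_union_distrib_left, inter_eq_left.2 hZ]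
    have h1 : I ∩ M.E ⊆ Z ∩ M.E := inter_subset_inter_left _ hI
    have h2 : I ∩ N.E ⊆ Z ∩ N.E := inter_subset_inter_left _ hI
    have h3 : I ⊆ M.E ∪ N.E := hI.trans hZ
    tauto

lemma split_restrict (M : Matroid α) (Z : Set α) (hZ : Z ⊆ M.E) (hM : Split M) :
    Split (M ↾ Z) := by
  obtain ⟨M₁, M₂, h, h₁, h₂, rfl⟩ := hM
  rw [Matroid.disjointSum_ground_eq] at hZ
  have h' : Disjoint (M₁ ↾ (Z ∩ M₁.E)).E (M₂ ↾ (Z ∩ M₂.E)).E :=
    h.mono inter_subset_right inter_subset_right
  refine ⟨M₁ ↾ (Z ∩ M₁.E), M₂ ↾ (Z ∩ M₂.E), h', inferInstance, ?_,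
    restrict_disjointSum M₁ M₂ h Z hZ h'⟩
  have : (M₂ ↾ (Z ∩ M₂.E)) = M₂ ＼ (M₂.E \ Z) := by
    rw [Matroid.delete_eq_restrict]
    congr 1
    ext x; simp only [mem_inter_iff, mem_sdiff]; tauto
  rw [this, Matroid.dual_delete]
  infer_instance

lemma split_dual (M : Matroid α) (hM : Split M) : Split M✶ := by
  obtain ⟨M₁, M₂, h, h₁, h₂, rfl⟩ := hM
  have h' : Disjoint M₁✶.E M₂✶.E := h
  refine ⟨M₂✶, M₁✶, h'.symm, h₂, ?_, ?_⟩
  · rwa [Matroid.dual_dual]
  · rw [dual_disjointSum M₁ M₂ h h', Matroid.disjointSum_comm]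

lemma split_of_finitary (M : Matroid α) (hM : M.Finitary) : Split M := by
  have h' : Disjoint M.E (Matroid.emptyOn α).E := by
    rw [Matroid.emptyOn_ground]; exact disjoint_empty _
  refine ⟨M, Matroid.emptyOn α, h', hM, ?_, ?_⟩
  · rw [Matroid.emptyOn_dual_eq]
    infer_instance
  · refine Matroid.ext_indep ?_ fun I hI => ?_
    · rw [Matroid.disjointSum_ground_eq, Matroid.emptyOn_ground, union_empty]
    rw [Matroid.disjointSum_indep_iff]
    simp [inter_eq_left.2 hI, hI]


/-! ## Closure under direct sums -/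

lemma dual_disjointSigma {ι : Type u} (M : ι → Matroid α)
    (h : Pairwise (Function.onFun Disjoint fun i => (M i).E))
    (h' : Pairwise (Function.onFun Disjoint fun i => (M i)✶.E)) :
    (Matroid.disjointSigma M h)✶ = Matroid.disjointSigma (fun i => (M i)✶) h' := by
  refine Matroid.ext_isBase ?_ fun B hB => ?_
  · rw [Matroid.dual_ground, Matroid.disjointSigma_ground_eq, Matroid.disjointSigma_ground_eq]
    simp
  have hB' : B ⊆ ⋃ i, (M i).E := by
    rwa [Matroid.dual_ground, Matroid.disjointSigma_ground_eq] at hB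
  rw [Matroid.dual_isBase_iff (by rwa [Matroid.disjointSigma_ground_eq]),
    Matroid.disjointSigma_isBase_iff, Matroid.disjointSigma_isBase_iff,
    Matroid.disjointSigma_ground_eq]
  have h3 : (⋃ i, (M i).E) \ B ⊆ ⋃ i, (M i).E := sdiff_subset
  have h4 : B ⊆ ⋃ i, (M i)✶.E := by simpa using hB'
  rw [and_iff_left h3, and_iff_left h4]
  refine forall_congr' fun i => ?_
  rw [Matroid.dual_ground, Matroid.dual_isBase_iff inter_subset_right]
  have e1 : (⋃ i, (M i).E) \ B ∩ (M i).E = (M i).E \ (B ∩ (M i).E) := by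
    ext x
    simp only [mem_inter_iff, mem_sdiff, mem_iUnion]
    constructor
    · rintro ⟨⟨-, h1⟩, h2⟩
      exact ⟨h2, fun h => h1 h.1⟩
    · rintro ⟨h1, h2⟩
      exact ⟨⟨⟨i, h1⟩, fun h => h2 ⟨h, h1⟩⟩, h1⟩
  rw [e1]

lemma finitary_disjointSigma {ι : Type u} (M : ι → Matroid α)
    (h : Pairwise (Function.onFun Disjoint fun i => (M i).E)) (hM : ∀ i, (M i).Finitary) :
    (Matroid.disjointSigma M h).Finitary := by
  refine ⟨fun I hI => ?_⟩
  rw [Matroid.disjointSigma_indep_iff]
  refine ⟨fun i => ?_, fun x hx => ?_⟩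
  · have := hM i
    refine (M i).indep_of_forall_finite_subset_indep _ fun J hJ hf => ?_
    have h1 := hI J (hJ.trans inter_subset_left) hf
    rw [Matroid.disjointSigma_indep_iff] at h1
    have h2 := h1.1 i
    rwa [inter_eq_left.2 (hJ.trans inter_subset_right)] at h2
  · have h1 := hI {x} (singleton_subset_iff.2 hx) (finite_singleton x)
    rw [Matroid.disjointSigma_indep_iff] at h1
    exact h1.2 rfl

lemma sum_split (P : Set (Set α)) (hP : P.PairwiseDisjoint id)
    (I : Set α → Set (Set α)) (hI : ∀ U ∈ P, I U ∈ sysOf Split U) :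
    directSum P I ∈ sysOf Split (⋃₀ P) := by
  classical
  have hI' : ∀ U : P, ∃ (M₁ M₂ : Matroid α) (h : Disjoint M₁.E M₂.E), M₁.Finitary ∧
      M₂✶.Finitary ∧ M₁.E ∪ M₂.E = U.1 ∧ I U.1 = fam (M₁.disjointSum M₂ h) := by
    rintro ⟨U, hU⟩
    obtain ⟨M, hE, ⟨M₁, M₂, h, h₁, h₂, rfl⟩, hM⟩ := hI U hU
    exact ⟨M₁, M₂, h, h₁, h₂, by rwa [Matroid.disjointSum_ground_eq] at hE, hM⟩
  choose M₁ M₂ h hf₁ hf₂ hE hM using hI'
  have hdis : ∀ i j : P, i ≠ j → Disjoint i.1 j.1 := fun i j hij =>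
    hP i.2 j.2 (fun h => hij (Subtype.ext h))
  have s₁ : ∀ i, (M₁ i).E ⊆ i.1 := fun i => (hE i) ▸ subset_union_left
  have s₂ : ∀ i, (M₂ i).E ⊆ i.1 := fun i => (hE i) ▸ subset_union_right
  have p₁ : Pairwise (Function.onFun Disjoint fun i => (M₁ i).E) := fun i j hij =>
    (hdis i j hij).mono (s₁ i) (s₁ j)
  have p₂ : Pairwise (Function.onFun Disjoint fun i => (M₂ i).E) := fun i j hij =>
    (hdis i j hij).mono (s₂ i) (s₂ j)
  have p₂' : Pairwise (Function.onFun Disjoint fun i => (M₂ i)✶.E) := fun i j hij =>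
    (hdis i j hij).mono (s₂ i) (s₂ j)
  have hd : Disjoint (Matroid.disjointSigma M₁ p₁).E (Matroid.disjointSigma M₂ p₂).E := by
    rw [Matroid.disjointSigma_ground_eq, Matroid.disjointSigma_ground_eq, disjoint_iUnion_left]
    intro i
    rw [disjoint_iUnion_right]
    intro j
    by_cases hij : i = j
    · subst hij; exact h i
    · exact (hdis i j hij).mono (s₁ i) (s₂ j)
  refine ⟨(Matroid.disjointSigma M₁ p₁).disjointSum (Matroid.disjointSigma M₂ p₂) hd, ?_,
    ⟨_, _, hd, finitary_disjointSigma M₁ p₁ hf₁, ?_, rfl⟩, ?_⟩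
  · rw [Matroid.disjointSum_ground_eq, Matroid.disjointSigma_ground_eq,
      Matroid.disjointSigma_ground_eq, ← iUnion_union_distrib, sUnion_eq_iUnion]
    exact iUnion_congr hE
  · rw [dual_disjointSigma M₂ p₂ p₂']
    exact finitary_disjointSigma _ p₂' hf₂
  · ext X
    rw [mem_fam, Matroid.disjointSum_indep_iff, Matroid.disjointSigma_indep_iff,
      Matroid.disjointSigma_indep_iff, Matroid.disjointSigma_ground_eq,
      Matroid.disjointSigma_ground_eq]
    have hU : (⋃ i, (M₁ i).E) ∪ (⋃ i, (M₂ i).E) = ⋃₀ P := by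
      rw [← iUnion_union_distrib, sUnion_eq_iUnion]
      exact iUnion_congr hE
    rw [hU]
    have e1 : ∀ i, X ∩ (⋃ i, (M₁ i).E) ∩ (M₁ i).E = X ∩ (M₁ i).E := fun i => by
      rw [inter_assoc, inter_eq_right.2 (subset_iUnion (fun i => (M₁ i).E) i)]
    have e2 : ∀ i, X ∩ (⋃ i, (M₂ i).E) ∩ (M₂ i).E = X ∩ (M₂ i).E := fun i => by
      rw [inter_assoc, inter_eq_right.2 (subset_iUnion (fun i => (M₂ i).E) i)]
    simp only [e1, e2]
    have key : ∀ i : P, (X ∩ i.1 ∈ I i.1 ↔
        (M₁ i).Indep (X ∩ (M₁ i).E) ∧ (M₂ i).Indep (X ∩ (M₂ i).E)) := by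
      intro i
      rw [hM i, mem_fam, Matroid.disjointSum_indep_iff, inter_assoc, inter_assoc,
        inter_eq_right.2 (s₁ i), inter_eq_right.2 (s₂ i), hE i]
      have := inter_subset_right (s := X) (t := i.1)
      tauto
    simp only [directSum, mem_ofPred_eq]
    constructor
    · rintro ⟨h1, h2⟩
      exact ⟨⟨fun i => ((key i).1 (h2 i.1 i.2)).1, inter_subset_right⟩,
        ⟨fun i => ((key i).1 (h2 i.1 i.2)).2, inter_subset_right⟩, h1⟩
    · rintro ⟨⟨h1, -⟩, ⟨h2, -⟩, h3⟩
      exact ⟨h3, fun U hU => (key ⟨U, hU⟩).2 ⟨h1 _, h2 _⟩⟩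

/-! ## Closure under isomorphism -/

lemma map_split (M : Matroid α) (f : α → α) (hf : InjOn f M.E) (hM : Split M) :
    Split (M.map f hf) := by
  obtain ⟨M₁, M₂, h, h₁, h₂, rfl⟩ := hM
  have hE : (M₁.disjointSum M₂ h).E = M₁.E ∪ M₂.E := Matroid.disjointSum_ground_eq
  have hf' : InjOn f (M₁.E ∪ M₂.E) := by rwa [hE] at hf
  have f₁ : InjOn f M₁.E := hf'.mono subset_union_left
  have f₂ : InjOn f M₂.E := hf'.mono subset_union_right
  have f₂' : InjOn f M₂✶.E := f₂
  have hd : Disjoint (M₁.map f f₁).E (M₂.map f f₂).E := by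
    rw [Matroid.map_ground, Matroid.map_ground, disjoint_left]
    rintro _ ⟨x, hx, rfl⟩ ⟨y, hy, hxy⟩
    have := hf' (Or.inr hy) (Or.inl hx) hxy
    subst this
    exact disjoint_left.1 h hx hy
  have hfin : (M₂✶.map f f₂').Finitary := inferInstance
  refine ⟨M₁.map f f₁, M₂.map f f₂, hd, inferInstance, ?_, ?_⟩
  · rw [Matroid.map_dual]
    exact hfin
  · refine Matroid.ext_indep ?_ fun I hI => ?_
    · rw [Matroid.map_ground, hE, Matroid.disjointSum_ground_eq,
        Matroid.map_ground, Matroid.map_ground, image_union]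
    · rw [Matroid.map_ground, subset_image_iff] at hI
      obtain ⟨J, hJ, rfl⟩ := hI
      rw [Matroid.map_image_indep_iff hJ, Matroid.disjointSum_indep_iff,
        Matroid.disjointSum_indep_iff, Matroid.map_ground, Matroid.map_ground]
      rw [hE] at hJ
      rw [← hf'.image_inter hJ subset_union_left, ← hf'.image_inter hJ subset_union_right,
        Matroid.map_image_indep_iff inter_subset_right,
        Matroid.map_image_indep_iff inter_subset_right, ← image_union]
      have := image_mono (f := f) hJ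
      tauto

lemma iso_split (S : Set α) : ClosedUnderIso S (sysOf (Split (α := α))) := by
  rintro W - f hf - I ⟨M, rfl, hM, rfl⟩
  refine ⟨M.map f hf, rfl, map_split M f hf hM, ?_⟩
  ext X
  rw [mem_fam, Matroid.map_indep_iff]
  constructor
  · rintro ⟨Y, hY, rfl⟩
    exact ⟨Y, hY, rfl⟩
  · rintro ⟨Y, hY, rfl⟩
    exact ⟨Y, hY, rfl⟩


/-! ## A connected B-matroid with an infinite circuit and an infinite cocircuit -/

/-- Rank one uniform matroid on `insert a B`. -/
noncomputable def rankOne (a : α) (B : Set α) : Matroid α :=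
  (Matroid.freeOn {a}).comapOn (insert a B) (fun _ => a)

lemma rankOne_indep (a : α) (B X : Set α) :
    (rankOne a B).Indep X ↔ X.Subsingleton ∧ X ⊆ insert a B := by
  rw [rankOne, Matroid.comapOn_indep_iff, Matroid.freeOn_indep_iff]
  constructor
  · rintro ⟨-, h2, h3⟩
    exact ⟨fun x hx y hy => h2 hx hy rfl, h3⟩
  · rintro ⟨h1, h2⟩
    refine ⟨?_, fun x hx y hy _ => h1 hx hy, h2⟩
    rintro _ ⟨x, -, rfl⟩
    rfl

lemma rankOne_dual_indep (a : α) (B X : Set α) :
    (rankOne a B)✶.Indep X ↔ X ⊆ insert a B ∧ ∃ e ∈ insert a B, e ∉ X := by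
  rw [Matroid.dual_indep_iff_exists']
  have hE : (rankOne a B).E = insert a B := rfl
  rw [hE]
  refine and_congr_right fun hX => ?_
  constructor
  · rintro ⟨C, hC, hd⟩
    have hCi := (rankOne_indep a B C).1 hC.indep
    have hne : C.Nonempty := by
      rw [nonempty_iff_ne_empty]
      rintro rfl
      have h1 : (rankOne a B).Indep {a} :=
        (rankOne_indep a B {a}).2 ⟨subsingleton_singleton, by simp⟩
      have := hC.eq_of_subset_indep h1 (empty_subset _)
      exact absurd this.symm (singleton_ne_empty a)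
    obtain ⟨e, he⟩ := hne
    exact ⟨e, hCi.2 he, fun h => disjoint_left.1 hd h he⟩
  · rintro ⟨e, he, heX⟩
    refine ⟨{e}, ?_, by simpa using heX⟩
    rw [Matroid.isBase_iff_maximal_indep]
    refine ⟨(rankOne_indep a B {e}).2 ⟨subsingleton_singleton, by simpa using he⟩, ?_⟩
    intro Y hY heY
    have := (rankOne_indep a B Y).1 hY
    intro y hy
    exact this.1 hy (heY rfl)

open Classical in
/-- The test matroid on `A ∪ B`: the circuits are the pairs in `A` and the sets `insert a B` with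
`a` in `A`. -/
noncomputable def testM (a : α) (A B : Set α) : Matroid α :=
  (rankOne a B)✶.comapOn (A ∪ B) (fun x => if x ∈ A then a else x)

lemma testM_indep {a : α} {A B : Set α} (ha : a ∈ A) (hAB : Disjoint A B) (X : Set α) :
    (testM a A B).Indep X ↔ X ⊆ A ∪ B ∧ (X ∩ A).Subsingleton ∧ ((X ∩ A).Nonempty → ¬ B ⊆ X) := by
  classical
  have hnB : ∀ x ∈ B, x ∉ A := fun x hx hxA => disjoint_left.1 hAB hxA hx
  have haB : a ∉ B := disjoint_left.1 hAB ha
  rw [testM, Matroid.comapOn_indep_iff, rankOne_dual_indep]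
  constructor
  · rintro ⟨⟨-, e, he, heX⟩, h3, h4⟩
    refine ⟨h4, fun x hx y hy => h3 hx.1 hy.1 (by simp [hx.2, hy.2]), ?_⟩
    rintro ⟨x, hx⟩ hB
    apply heX
    rcases he with rfl | he
    · exact ⟨x, hx.1, by simp [hx.2]⟩
    · exact ⟨e, hB he, by simp [hnB e he]⟩
  · rintro ⟨h1, h2, h3⟩
    refine ⟨⟨?_, ?_⟩, ?_, h1⟩
    · rintro _ ⟨x, hx, rfl⟩
      rcases h1 hx with h | h
      · left; simp [h]
      · right; simpa [hnB x h] using h
    · by_cases hne : (X ∩ A).Nonempty
      · have := h3 hne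
        rw [not_subset] at this
        obtain ⟨b, hb, hbX⟩ := this
        refine ⟨b, Or.inr hb, ?_⟩
        rintro ⟨x, hx, hxb⟩
        by_cases hxA : x ∈ A
        · simp only [if_pos hxA] at hxb
          exact haB (hxb ▸ hb)
        · simp only [if_neg hxA] at hxb
          exact hbX (hxb ▸ hx)
      · refine ⟨a, Or.inl rfl, ?_⟩
        rintro ⟨x, hx, hxa⟩
        by_cases hxA : x ∈ A
        · exact hne ⟨x, hx, hxA⟩
        · simp only [if_neg hxA] at hxa
          exact hxA (hxa ▸ ha)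
    · intro x hx y hy hxy
      by_cases hxA : x ∈ A <;> by_cases hyA : y ∈ A
      · exact h2 ⟨hx, hxA⟩ ⟨hy, hyA⟩
      · simp only [hxA, hyA, if_true, if_false] at hxy
        exact absurd (hxy ▸ ha) hyA
      · simp only [hxA, hyA, if_true, if_false] at hxy
        exact absurd (hxy ▸ ha) hxA
      · simpa only [hxA, hyA, if_false] using hxy

lemma testM_ground (a : α) (A B : Set α) : (testM a A B).E = A ∪ B := by
  rw [testM, Matroid.comapOn_ground_eq]

lemma testM_not_finitary {a : α} {A B : Set α} (ha : a ∈ A) (hAB : Disjoint A B)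
    (hB : B.Infinite) : ¬ (testM a A B).Finitary := by
  intro h
  have hd : ¬ (testM a A B).Indep (insert a B) := by
    rw [testM_indep ha hAB]
    rintro ⟨-, -, h3⟩
    exact h3 ⟨a, mem_insert _ _, ha⟩ (subset_insert _ _)
  apply hd
  refine (testM a A B).indep_of_forall_finite_subset_indep _ fun J hJ hf => ?_
  rw [testM_indep ha hAB]
  refine ⟨hJ.trans (insert_subset (Or.inl ha) subset_union_right), ?_, fun _ hBJ =>
    hB (hf.subset hBJ)⟩
  have : J ∩ A ⊆ {a} := by
    rintro x ⟨hx, hxA⟩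
    rcases hJ hx with rfl | hxB
    · rfl
    · exact absurd hxB (disjoint_left.1 hAB hxA)
  exact subsingleton_singleton.anti this

lemma testM_dual_not_finitary {a : α} {A B : Set α} (ha : a ∈ A) (hAB : Disjoint A B)
    (hA : A.Infinite) (hB : B.Nonempty) : ¬ (testM a A B)✶.Finitary := by
  intro h
  obtain ⟨b, hb⟩ := hB
  have hbA : b ∉ A := fun h => disjoint_left.1 hAB h hb
  have hBi : (testM a A B).Indep B := by
    rw [testM_indep ha hAB]
    refine ⟨subset_union_right, ?_, ?_⟩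
    · rw [inter_comm, hAB.inter_eq]; exact subsingleton_empty
    · rw [inter_comm, hAB.inter_eq]; exact fun h => absurd h not_nonempty_empty
  have hd : ¬ (testM a A B)✶.Indep (insert b A) := by
    rw [Matroid.dual_indep_iff_exists', testM_ground]
    rintro ⟨-, C, hC, hdis⟩
    have hCB : C ⊆ B \ {b} := by
      intro x hx
      have h1 : x ∉ insert b A := fun h => disjoint_left.1 hdis h hx
      rw [mem_insert_iff, not_or] at h1
      have h2 : x ∈ A ∪ B := by
        have := hC.subset_ground hx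
        rwa [testM_ground] at this
      exact ⟨h2.resolve_left h1.2, h1.1⟩
    have := hC.eq_of_subset_indep hBi (hCB.trans sdiff_subset)
    rw [this] at hCB
    exact (hCB hb).2 rfl
  apply hd
  refine (testM a A B)✶.indep_of_forall_finite_subset_indep _ fun J hJ hf => ?_
  rw [Matroid.dual_indep_iff_exists', testM_ground]
  refine ⟨hJ.trans (insert_subset (Or.inr hb) subset_union_left), ?_⟩
  obtain ⟨a', ha', ha'J⟩ := hA.exists_notMem_finite hf
  refine ⟨insert a' (B \ {b}), ?_, ?_⟩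
  · rw [Matroid.isBase_iff_maximal_indep]
    have hint : insert a' (B \ {b}) ∩ A = {a'} := by
      ext x
      simp only [mem_inter_iff, mem_insert_iff, mem_sdiff, mem_singleton_iff]
      constructor
      · rintro ⟨rfl | h1, h2⟩
        · rfl
        · exact absurd h1.1 (disjoint_left.1 hAB h2)
      · rintro rfl
        exact ⟨Or.inl rfl, ha'⟩
    refine ⟨?_, ?_⟩
    · rw [testM_indep ha hAB, hint]
      refine ⟨insert_subset (Or.inl ha') (sdiff_subset.trans subset_union_right),
        subsingleton_singleton, fun _ hBs => ?_⟩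
      rcases hBs hb with h1 | h1
      · exact hbA (h1 ▸ ha')
      · exact h1.2 rfl
    · intro Y hY hle x hx
      rw [testM_indep ha hAB] at hY
      obtain ⟨h1, h2, h3⟩ := hY
      have ha'Y : a' ∈ Y := hle (mem_insert _ _)
      rcases h1 hx with hxA | hxB
      · left
        exact h2 ⟨hx, hxA⟩ ⟨ha'Y, ha'⟩
      · right
        refine ⟨hxB, ?_⟩
        rintro rfl
        refine h3 ⟨a', ha'Y, ha'⟩ fun y hy => ?_
        by_cases hyb : y = x
        · exact hyb ▸ hx
        · exact hle (Or.inr ⟨hy, hyb⟩)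
  · rw [disjoint_left]
    rintro x hxJ (rfl | hxB)
    · exact ha'J hxJ
    · rcases hJ hxJ with rfl | hxA
      · exact hxB.2 rfl
      · exact disjoint_left.1 hAB hxA hxB.1

lemma testM_not_split {a : α} {A B : Set α} (ha : a ∈ A) (hAB : Disjoint A B)
    (hA : A.Infinite) (hB : B.Infinite) : ¬ Split (testM a A B) := by
  rintro ⟨M₁, M₂, h, h₁, h₂, hM⟩
  have hE : A ∪ B = M₁.E ∪ M₂.E := by
    rw [← testM_ground a A B, hM, Matroid.disjointSum_ground_eq]
  -- no circuit `insert x B`, `x ∈ A`, meets both parts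
  have key : ∀ x ∈ A, insert x B ⊆ M₁.E ∨ insert x B ⊆ M₂.E := by
    intro x hx
    by_contra hcon
    rw [not_or, not_subset, not_subset] at hcon
    obtain ⟨⟨u, hu, hu1⟩, v, hv, hv2⟩ := hcon
    have hC : insert x B ⊆ A ∪ B := insert_subset (Or.inl hx) subset_union_right
    have hnd : ¬ (testM a A B).Indep (insert x B) := by
      rw [testM_indep ha hAB]
      rintro ⟨-, -, h3⟩
      exact h3 ⟨x, mem_insert _ _, hx⟩ (subset_insert _ _)
    have hprop : ∀ w ∈ insert x B, (testM a A B).Indep (insert x B \ {w}) := by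
      intro w hw
      rw [testM_indep ha hAB]
      refine ⟨sdiff_subset.trans hC, ?_, ?_⟩
      · have : insert x B \ {w} ∩ A ⊆ {x} := by
          rintro y ⟨⟨hy, -⟩, hyA⟩
          rcases hy with rfl | hyB
          · rfl
          · exact absurd hyB (disjoint_left.1 hAB hyA)
        exact subsingleton_singleton.anti this
      · rintro ⟨y, ⟨hy, hyw⟩, hyA⟩ hBs
        rcases hw with rfl | hwB
        · rcases hy with rfl | hyB
          · exact hyw rfl
          · exact disjoint_left.1 hAB hyA hyB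
        · exact (hBs hwB).2 rfl
    apply hnd
    have hi1 := hprop u hu
    have hi2 := hprop v hv
    rw [hM, Matroid.disjointSum_indep_iff] at hi1 hi2 ⊢
    refine ⟨?_, ?_, hE ▸ hC⟩
    · have : insert x B ∩ M₁.E = (insert x B \ {u}) ∩ M₁.E := by
        ext y
        simp only [mem_inter_iff, mem_sdiff, mem_singleton_iff]
        constructor
        · rintro ⟨h1, h2⟩
          exact ⟨⟨h1, fun h => hu1 (h ▸ h2)⟩, h2⟩
        · rintro ⟨⟨h1, -⟩, h2⟩
          exact ⟨h1, h2⟩
      rw [this]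
      exact hi1.1
    · have : insert x B ∩ M₂.E = (insert x B \ {v}) ∩ M₂.E := by
        ext y
        simp only [mem_inter_iff, mem_sdiff, mem_singleton_iff]
        constructor
        · rintro ⟨h1, h2⟩
          exact ⟨⟨h1, fun h => hv2 (h ▸ h2)⟩, h2⟩
        · rintro ⟨⟨h1, -⟩, h2⟩
          exact ⟨h1, h2⟩
      rw [this]
      exact hi2.2.1
  obtain ⟨b, hb⟩ := hB.nonempty
  by_cases hb1 : b ∈ M₁.E
  · -- everything lies in the first part
    have hall : A ∪ B ⊆ M₁.E := by
      have hx1 : ∀ x ∈ A, insert x B ⊆ M₁.E := fun x hx => (key x hx).resolve_right fun h2 =>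
        disjoint_left.1 h hb1 (h2 (Or.inr hb))
      rintro x (hx | hx)
      · exact hx1 x hx (mem_insert _ _)
      · exact hx1 a ha (Or.inr hx)
    have hM2 : M₂.E = ∅ := by
      rw [← subset_empty_iff]
      intro x hx
      exact disjoint_left.1 h (hall (hE ▸ Or.inr hx)) hx
    apply testM_not_finitary ha hAB hB
    refine ⟨fun I hI => ?_⟩
    rw [hM, Matroid.disjointSum_indep_iff]
    have hIE : I ⊆ M₁.E := by
      intro x hx
      have := (hI {x} (singleton_subset_iff.2 hx) (finite_singleton x)).subset_ground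
      rw [testM_ground] at this
      exact hall (this rfl)
    rw [hM2, inter_empty, inter_eq_left.2 hIE, union_empty]
    refine ⟨M₁.indep_of_forall_finite_subset_indep _ fun J hJ hf => ?_, M₂.empty_indep, hIE⟩
    have := hI J hJ hf
    rw [hM, Matroid.disjointSum_indep_iff, inter_eq_left.2 (hJ.trans hIE)] at this
    exact this.1
  · have hb2 : b ∈ M₂.E := by
      have : b ∈ M₁.E ∪ M₂.E := hE ▸ Or.inr hb
      exact this.resolve_left hb1
    have hall : A ∪ B ⊆ M₂.E := by
      have hx1 : ∀ x ∈ A, insert x B ⊆ M₂.E := fun x hx => (key x hx).resolve_left fun h2 =>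
        disjoint_left.1 h (h2 (Or.inr hb)) hb2
      rintro x (hx | hx)
      · exact hx1 x hx (mem_insert _ _)
      · exact hx1 a ha (Or.inr hx)
    have hM1 : M₁.E = ∅ := by
      rw [← subset_empty_iff]
      intro x hx
      exact disjoint_left.1 h hx (hall (hE ▸ Or.inl hx))
    have hd' : Disjoint M₁✶.E M₂✶.E := h
    apply testM_dual_not_finitary ha hAB hA hB.nonempty
    rw [hM, dual_disjointSum M₁ M₂ h hd']
    refine ⟨fun I hI => ?_⟩
    have hgr : M₁✶.E = ∅ := hM1
    have hIE : I ⊆ M₂✶.E := by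
      intro x hx
      have := (hI {x} (singleton_subset_iff.2 hx) (finite_singleton x)).subset_ground
      rw [Matroid.disjointSum_ground_eq, hgr, empty_union] at this
      exact this rfl
    rw [Matroid.disjointSum_indep_iff, hgr, inter_empty, inter_eq_left.2 hIE, empty_union]
    refine ⟨M₁✶.empty_indep, M₂✶.indep_of_forall_finite_subset_indep _ fun J hJ hf => ?_, hIE⟩
    have := hI J hJ hf
    rw [Matroid.disjointSum_indep_iff, inter_eq_left.2 (hJ.trans hIE)] at this
    exact this.2.1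


lemma exists_infinite_split {W : Set α} (hW : W.Infinite) :
    ∃ A B : Set α, A ∪ B = W ∧ Disjoint A B ∧ A.Infinite ∧ B.Infinite := by
  let g := hW.natEmbedding
  let B : Set α := range fun n : ℕ => (g (2 * n) : α)
  have hBW : B ⊆ W := by
    rintro _ ⟨n, rfl⟩
    exact (g (2 * n)).2
  refine ⟨W \ B, B, sdiff_union_of_subset hBW, disjoint_sdiff_left, ?_, ?_⟩
  · refine infinite_of_injective_forall_mem (f := fun n : ℕ => (g (2 * n + 1) : α)) ?_ ?_
    · intro m n hmn
      have := g.injective (Subtype.ext hmn)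
      omega
    · rintro n
      refine ⟨(g (2 * n + 1)).2, ?_⟩
      rintro ⟨m, hm⟩
      have := g.injective (Subtype.ext hm)
      omega
  · refine infinite_range_of_injective ?_
    intro m n hmn
    have := g.injective (Subtype.ext hmn)
    omega

lemma exists_not_mem (W : Set α) (hW : W.Infinite) :
    ∃ I, IsBMatroid W I ∧ I ∉ sysOf Split W := by
  obtain ⟨A, B, rfl, hd, hA, hB⟩ := exists_infinite_split hW
  obtain ⟨a, ha⟩ := hA.nonempty
  refine ⟨fam (testM a A B), ?_, ?_⟩
  · have := fam_bMatroid (testM a A B)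
    rwa [testM_ground] at this
  · rintro ⟨M, hE, hM, h⟩
    have : testM a A B = M := fam_inj (by rw [testM_ground, hE]) h
    rw [← this] at hM
    exact testM_not_split ha hd hA hB hM

/-- On every infinite set `S` there is an admissible system that contains all independence
spaces, is closed under arbitrary direct sums and under isomorphism, and misses a B-matroid on `S`
and also on every other infinite subset `W` of `S`. -/
theorem result (S : Set α) (hS : S.Infinite) :
    ∃ D : Set α → Set (Set (Set α)), IsAdmissible S D ∧ ContainsIndepSpaces S D ∧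
      ClosedUnderDirectSums S D ∧ ClosedUnderIso S D ∧
      (∃ I, IsBMatroid S I ∧ I ∉ D S) ∧
      ∀ W, W ⊆ S → W.Infinite → ∃ I, IsBMatroid W I ∧ I ∉ D W := by
  refine ⟨sysOf Split, sysOf_admissible Split split_restrict split_dual S, ?_,
    fun P _ hP I hI => sum_split P hP I hI, iso_split S, exists_not_mem S hS,
    fun W _ hW => exists_not_mem W hW⟩
  intro W _ I hI
  obtain ⟨M, hE, hM, hf⟩ := exists_finitary hI
  exact ⟨M, hE, split_of_finitary M hf, hM.symm⟩

end Pool.Agent.Results.MP_cb2a9f_co.SplitSystem
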